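import Pool.Agent.WAG.ADefs
import Pool.Agent.TJ3.JB3
import Pool.Agent.TJ2.JG
import Pool.Agent.TJ2.JA

/-!
# Tate classes from the partner property

`gen`: if the eigenvalues of a semisimple Frobenius satisfy the partner property then all Tate
classes are in the algebra generated by those of degree 2.
`transfer`: the partner property of algebraic numbers in `ℂ` gives it in every algebraically closed
field of characteristic 0.
-/

set_option autoImplicit false

open Polynomial IntermediateField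

namespace Pool.Agent.H1T

open Pool.Agent.TJ2 Pool.Agent.TJ3

/-- powers of an endomorphism at an eigenvector -/
lemma pow_eig {K : Type} [Field K] {V : Type} [AddCommGroup V] [Module K V]
    (F : Module.End K V) {v : V} {μ : K} (h : F v = μ • v) (M : ℕ) :
    (F ^ M) v = μ ^ M • v := by
  induction M with
  | zero => simp
  | succ M ih => rw [pow_succ', Module.End.mul_apply, ih, map_smul, h, smul_smul, pow_succ]

theorem gen {K : Type} [Field K] [IsAlgClosed K] [CharZero K] {V : Type} [AddCommGroup V]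
    [Module K V] [Module.Finite K V] (F : Module.End K V) (hss : F.IsSemisimple) (q : ℕ)
    (hq1 : 1 ≤ q) (A : K → Prop) (hadm : ∀ z : K, F.charpoly.IsRoot z → A z)
    (hpart : ∀ (z : K) (l : List K), A z → (∀ y ∈ l, A y) → ∀ j N : ℕ, 1 ≤ N →
      l.length + 1 = 2 * j → (z * l.prod) ^ N = ((q : K) ^ j) ^ N →
      ∃ y ∈ l, ∃ M : ℕ, 1 ≤ M ∧ (z * y) ^ M = (q : K) ^ M)
    (j N : ℕ) (x : ExteriorAlgebra K V) (hN : 1 ≤ N) (hx : x ∈ ⋀[K]^(2 * j) V)
    (hFx : ExteriorAlgebra.map (F ^ N) x = (q : K) ^ (j * N) • x) :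
    x ∈ Algebra.adjoin K (Deg2g F (q : K)) := by
  classical
  have hq0 : (q : K) ≠ 0 := by exact_mod_cast (by omega : q ≠ 0)
  have hE : ∀ e ∈ JGE F, ∃ μ : K, F e = μ • e ∧ A μ := by
    rintro v ⟨hv, μ, hμ⟩
    refine ⟨μ, hμ, hadm μ ?_⟩
    have h2 : Module.End.HasEigenvalue F μ :=
      Module.End.hasEigenvalue_of_hasEigenvector
        ⟨Module.End.mem_eigenspace_iff.2 hμ, hv⟩
    exact (Module.End.hasEigenvalue_iff_isRoot_charpoly F μ).1 h2
  choose! lam hlam hlamA using hE
  have hmem := t_JA K V (F ^ N) (JGE F) (fun e => lam e ^ N)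
    (fun e he => pow_eig F (hlam e he) N) (JG_span F hss) (2 * j) x ((q : K) ^ (j * N))
    hx hFx
  have hprod : ∀ l : List V, (l.map (fun e => lam e ^ N)).prod = (l.map lam).prod ^ N := by
    intro l
    induction l with
    | nil => simp
    | cons a l ih => rw [List.map_cons, List.prod_cons, ih, List.map_cons, List.prod_cons, mul_pow]
  have hmatch : ∀ (e : V) (l : List V) (j N : ℕ), e ∈ JGE F → (∀ e' ∈ l, e' ∈ JGE F) → 1 ≤ N →
      (lam e * (l.map lam).prod) ^ N = ((q : K) ^ j) ^ N → l.length + 1 = 2 * j →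
      ∃ e' ∈ l, ∃ M : ℕ, 1 ≤ M ∧ (lam e * lam e') ^ M = (q : K) ^ M := by
    intro e l j N he hl hN hp' hlen
    obtain ⟨y, hy, M, hM, hyM⟩ := hpart (lam e) (l.map lam) (hlamA e he)
      (fun y hy => by
        obtain ⟨e', he', rfl⟩ := List.mem_map.1 hy
        exact hlamA e' (hl e' he')) j N hN (by rw [List.length_map]; exact hlen) hp'
    obtain ⟨e', he', rfl⟩ := List.mem_map.1 hy
    exact ⟨e', he', M, hM, hyM⟩
  have hle : Submodule.span K {w | ∃ l : List V, l.length = 2 * j ∧
      (∀ e ∈ l, e ∈ JGE F) ∧ (l.map (fun e => lam e ^ N)).prod = (q : K) ^ (j * N) ∧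
      w = (l.map (ExteriorAlgebra.ι K)).prod} ≤
      Subalgebra.toSubmodule (Algebra.adjoin K (Deg2g F (q : K))) := by
    rw [Submodule.span_le]
    rintro w ⟨l, hl1, hl2, hl3, rfl⟩
    refine t_JB3 K V F (JGE F) lam (q : K) hq0 hlam hmatch l j N hN hl2 hl1 ?_
    rw [← hprod, hl3, pow_mul]
  exact hle hmem

/-- Admissible eigenvalues for `S`: a power of `z` is a power of `√q`, or of a root of
`x ^ g h (x + q / x)`, `h ∈ S`. -/
def AdmK (q : ℕ) (S : Set ℤ[X]) {K : Type} [Field K] (z : K) : Prop :=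
  ∃ N : ℕ, 1 ≤ N ∧ (z ^ (2 * N) = (q : K) ^ N ∨
    ∃ h ∈ S, ∃ r : K, r ≠ 0 ∧ aeval (r + q / r) h = 0 ∧ z ^ N = r ^ N)

/-- a nonzero `r` with `r + q / r` a root of `h ≠ 0` is algebraic -/
lemma root_algebraic {K : Type} [Field K] [CharZero K] {q : ℕ} {h : ℤ[X]} (hh : h ≠ 0) {r : K}
    (hr : r ≠ 0) (h2 : aeval (r + q / r) h = 0) : IsIntegral ℚ r := by
  have hs : IsAlgebraic ℤ (r + q / r) := ⟨h, hh, h2⟩
  have hs' : IsIntegral ℚ (r + q / r) := by
    have h3 : IsAlgebraic ℚ (r + q / r) := by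
      refine ⟨h.map (Int.castRingHom ℚ), ?_, ?_⟩
      · exact (Polynomial.map_ne_zero_iff (RingHom.injective_int (Int.castRingHom ℚ))).2 hh
      · rw [← h2, aeval_def, aeval_def, eval₂_map]
        congr 1
        exact RingHom.ext_int _ _
    exact h3.isIntegral
  have hB : ∃ B : Subalgebra ℚ K, B = integralClosure ℚ K := ⟨_, rfl⟩
  obtain ⟨B, hB⟩ := hB
  have hsB : r + q / r ∈ B := by rw [hB]; exact hs'
  have hint : IsIntegral B r := by
    refine ⟨X ^ 2 - C (⟨r + q / r, hsB⟩ : B) * X + C ((q : ℕ) : B), ?_, ?_⟩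
    · have : (X ^ 2 - C (⟨r + q / r, hsB⟩ : B) * X + C ((q : ℕ) : B)) =
        X ^ 2 + (C ((q : ℕ) : B) - C (⟨r + q / r, hsB⟩ : B) * X) := by ring
      rw [this]
      refine monic_X_pow_add ?_
      refine lt_of_le_of_lt (degree_sub_le _ _) ?_
      refine max_lt ?_ ?_
      · exact lt_of_le_of_lt degree_C_le (by norm_num)
      · exact lt_of_le_of_lt (degree_C_mul_X_le _) (by norm_num)
    · simp only [eval₂_add, eval₂_sub, eval₂_mul, eval₂_pow, eval₂_X, eval₂_C]
      change r ^ 2 - (r + q / r) * r + ((((q : ℕ) : B)) : K) = 0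
      have h5 : ((((q : ℕ) : B)) : K) = (q : K) := by push_cast; rfl
      rw [h5]
      field_simp
      ring
  have : Algebra.IsIntegral ℚ B := by
    rw [hB]
    infer_instance
  exact isIntegral_trans (R := ℚ) (A := B) r hint

lemma adm_algebraic {K : Type} [Field K] [CharZero K] {q : ℕ} {S : Set ℤ[X]}
    (hS : ∀ h ∈ S, h ≠ 0) {z : K} (h : AdmK q S z) : IsIntegral ℚ z := by
  obtain ⟨N, hN, h1 | ⟨h, hh, r, hr, h2, h3⟩⟩ := h
  · have h4 : IsIntegral ℚ (z ^ (2 * N)) := by
      rw [h1]
      refine IsIntegral.pow ?_ _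
      have := isIntegral_algebraMap (R := ℚ) (A := K) (x := (q : ℚ))
      simpa using this
    exact h4.of_pow (by omega)
  · have h4 : IsIntegral ℚ (z ^ N) := by
      rw [h3]
      exact (root_algebraic (hS h hh) hr h2).pow N
    exact h4.of_pow hN

/-- The partner property of complex numbers gives it in every algebraically closed field of
characteristic 0. -/
theorem transfer {q : ℕ} {S : Set ℤ[X]} (hS : ∀ h ∈ S, h ≠ 0)
    (hP : AlmostAll.Par q (AlmostAll.Adm q S)) (K : Type) [Field K] [IsAlgClosed K] [CharZero K]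
    (z : K) (l : List K) (hz : AdmK q S z) (hl : ∀ y ∈ l, AdmK q S y) (j N : ℕ) (hN : 1 ≤ N)
    (hlen : l.length + 1 = 2 * j) (hprod : (z * l.prod) ^ N = ((q : K) ^ j) ^ N) :
    ∃ y ∈ l, ∃ M : ℕ, 1 ≤ M ∧ (z * y) ^ M = (q : K) ^ M := by
  classical
  let B := integralClosure ℚ K
  have : Algebra.IsIntegral ℚ B := by infer_instance
  have : Algebra.IsAlgebraic ℚ B := Algebra.IsIntegral.isAlgebraic
  obtain ⟨ψ⟩ : Nonempty (B →ₐ[ℚ] ℂ) := ⟨IsAlgClosed.lift⟩
  have hψ : Function.Injective ψ := by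
    have hf : IsField B := isField_of_isIntegral_of_isField' (R := ℚ) (Field.toIsField ℚ)
    let _ : Field B := hf.toField
    exact (ψ : B →+* ℂ).injective
  -- lifts
  have hmem : ∀ y : K, AdmK q S y → ∃ b : B, (b : K) = y := fun y hy =>
    ⟨⟨y, adm_algebraic hS hy⟩, rfl⟩
  have hadm : ∀ b : B, AdmK q S (b : K) → AlmostAll.Adm q S (ψ b) := by
    rintro b ⟨M, hM, h1 | ⟨h, hh, r, hr, h2, h3⟩⟩
    · refine ⟨M, hM, Or.inl ?_⟩
      have h4 : b ^ (2 * M) = (q : B) ^ M := by
        apply Subtype.ext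
        push_cast
        exact h1
      rw [← map_pow, h4, map_pow, map_natCast]
    · have hri := root_algebraic (hS h hh) hr h2
      let r' : B := ⟨r, hri⟩
      have hr' : ψ r' ≠ 0 := by
        intro h0
        apply hr
        have : r' = 0 := hψ (by rw [h0, map_zero])
        exact congrArg Subtype.val this
      have hsi : IsIntegral ℚ (r + q / r) := by
        have hh0 := hS h hh
        have h3 : IsAlgebraic ℚ (r + q / r) := by
          refine ⟨h.map (Int.castRingHom ℚ), ?_, ?_⟩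
          · exact (Polynomial.map_ne_zero_iff (RingHom.injective_int (Int.castRingHom ℚ))).2 hh0
          · rw [← h2, aeval_def, aeval_def, eval₂_map]
            congr 1
            exact RingHom.ext_int _ _
        exact h3.isIntegral
      let s' : B := ⟨r + q / r, hsi⟩
      have hs1 : s' * r' = r' ^ 2 + (q : B) := by
        apply Subtype.ext
        change (r + q / r) * r = r ^ 2 + ((((q : ℕ) : B)) : K)
        have h5 : ((((q : ℕ) : B)) : K) = (q : K) := by push_cast; rfl
        rw [h5]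
        field_simp
      have hs2 : ψ s' = ψ r' + q / ψ r' := by
        have h5 := congrArg ψ hs1
        rw [map_mul, map_add, map_pow, map_natCast] at h5
        field_simp
        rw [h5]
      have hs3 : aeval (ψ s') h = 0 := by
        have h6 : aeval s' h = 0 := by
          apply Subtype.ext
          have h7 : ((aeval s' h : B) : K) = aeval (s' : K) h := by
            exact (Polynomial.aeval_algebraMap_apply K s' h).symm
          rw [h7]
          exact h2
        have h8 : aeval (ψ s') h = ψ (aeval s' h) := by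
          rw [aeval_def, aeval_def]
          have h9 := Polynomial.hom_eval₂ h (algebraMap ℤ B) (ψ : B →+* ℂ) s'
          have h10 : ψ (eval₂ (algebraMap ℤ B) s' h) =
            (ψ : B →+* ℂ) (eval₂ (algebraMap ℤ B) s' h) := rfl
          rw [h10, h9]
          have h11 : (ψ : B →+* ℂ).comp (algebraMap ℤ B) = algebraMap ℤ ℂ := RingHom.ext_int _ _
          rw [h11]
          rfl
        rw [h8, h6, map_zero]
      refine ⟨M, hM, Or.inr ⟨h, hh, ψ r', hr', ?_, ?_⟩⟩
      · rw [← hs2]
        exact hs3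
      · have h4 : b ^ M = r' ^ M := by
          apply Subtype.ext
          push_cast
          exact h3
        rw [← map_pow, h4, map_pow]
  obtain ⟨z', rfl⟩ := hmem z hz
  have hl' : ∃ l' : List B, l'.map (fun b : B => (b : K)) = l := by
    clear hlen hprod
    induction l with
    | nil => exact ⟨[], rfl⟩
    | cons a l ih =>
      obtain ⟨b, rfl⟩ := hmem a (hl a List.mem_cons_self)
      obtain ⟨l', rfl⟩ := ih fun y hy => hl y (List.mem_cons_of_mem _ hy)
      exact ⟨b :: l', rfl⟩
  obtain ⟨l', rfl⟩ := hl'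
  have hpB : (z' * l'.prod) ^ N = ((q : B) ^ j) ^ N := by
    apply Subtype.ext
    push_cast
    rw [← hprod]
  have hpC : (ψ z' * (l'.map ψ).prod) ^ N = ((q : ℂ) ^ j) ^ N := by
    have h5 := congrArg ψ hpB
    rw [map_pow, map_mul, map_list_prod, map_pow, map_pow, map_natCast] at h5
    exact h5
  obtain ⟨y, hy, M, hM, hyM⟩ := hP (ψ z') (l'.map ψ) (hadm z' hz) (by
      intro y hy
      obtain ⟨b, hb, rfl⟩ := List.mem_map.1 hy
      exact hadm b (hl b (List.mem_map.2 ⟨b, hb, rfl⟩))) j N hN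
      (by rw [List.length_map]; rw [List.length_map] at hlen; exact hlen) hpC
  obtain ⟨b, hb, rfl⟩ := List.mem_map.1 hy
  refine ⟨b, List.mem_map.2 ⟨b, hb, rfl⟩, M, hM, ?_⟩
  have h6 : (z' * b) ^ M = (q : B) ^ M := by
    apply hψ
    rw [map_pow, map_mul, map_pow, map_natCast]
    exact hyM
  have h7 := congrArg (fun t : B => (t : K)) h6
  push_cast at h7
  exact h7

/-- All Tate classes are generated in degree 2, from the partner property in `ℂ`. -/
theorem gen_of_par {q : ℕ} (hq : 1 ≤ q) {S : Set ℤ[X]} (hS : ∀ h ∈ S, h ≠ 0)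
    (hP : AlmostAll.Par q (AlmostAll.Adm q S)) (K : Type) [Field K] [IsAlgClosed K] [CharZero K]
    (V : Type) [AddCommGroup V] [Module K V] [Module.Finite K V] (F : Module.End K V)
    (hss : F.IsSemisimple) (hadm : ∀ z : K, F.charpoly.IsRoot z → AdmK q S z)
    (j N : ℕ) (x : ExteriorAlgebra K V) (hN : 1 ≤ N) (hx : x ∈ ⋀[K]^(2 * j) V)
    (hFx : ExteriorAlgebra.map (F ^ N) x = (q : K) ^ (j * N) • x) :
    x ∈ Algebra.adjoin K (Deg2g F (q : K)) :=
  gen F hss q hq (AdmK q S) hadm
    (fun z l hz hl j N hN hlen hp => transfer hS hP K z l hz hl j N hN hlen hp) j N x hN hx hFx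

end Pool.Agent.H1T
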